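import Pool.Agent.H47.SQ.Targets2

/-!
Board `ppz_modules`, row `MSD`: all scales together, with the exponent 12/7 of the number of the
lines (adapted from the module `MSC` of helper4; MP_c62aed_lc).
-/

set_option autoImplicit false

namespace Pool.Agent.H42.SP

open Finset Pool.Agent.H97.RK Pool.Agent.H41.SS
open Pool.Agent.H47.PL (Sat Agr Con dm nsol Os)
open Pool.Agent.H47.SQ (Derivation Refuted Find success sav guess AlmostAll)
open Pool.Agent.H47.SR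

open Classical in
private theorem success_eq {n k m : ℕ} (F : Fml n k m) (a s : ℕ) (T : Pool.Agent.H47.SQ.Tree n) :
    success F a s T = ((univ.filter fun ω => Find F (Refuted F a s) ω T ∅).card : ℝ) /
      (Fintype.card (Finset (Fin n × Bool) → Bool) : ℝ) := by
  unfold success
  rw [Nat.card_eq_fintype_card, Nat.card_eq_fintype_card, Fintype.card_subtype]

private theorem tb0 {X Nh : ℝ} {t R : ℕ} (hX : X ≤ Nh) :
    2 ^ (0 + 1) * (X * 2 ^ (4 * t)) * 2 ^ (R * t) ≤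
      2 * Nh * 2 ^ ((R + 4) * t) * (1 / 2) ^ 0 := by
  have h2 : (2 : ℝ) ^ ((R + 4) * t) = 2 ^ (4 * t) * 2 ^ (R * t) := by
    rw [← pow_add]
    congr 1
    ring
  rw [h2, zero_add, pow_one, pow_zero, mul_one]
  have h3 : (0 : ℝ) ≤ 2 ^ (4 * t) * 2 ^ (R * t) := by positivity
  calc 2 * (X * 2 ^ (4 * t)) * 2 ^ (R * t) = 2 * (X * (2 ^ (4 * t) * 2 ^ (R * t))) := by ring
    _ ≤ 2 * (Nh * (2 ^ (4 * t) * 2 ^ (R * t))) :=
        mul_le_mul_of_nonneg_left (mul_le_mul_of_nonneg_right hX h3) (by norm_num)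
    _ = 2 * Nh * (2 ^ (4 * t) * 2 ^ (R * t)) := by ring

private theorem tb1 {X Nh P : ℝ} {j t u : ℕ} (hX : X * 2 ^ (5 * u) ≤ Nh) (hX0 : 0 ≤ X)
    (h1 : 8 * t ≤ u) (h2 : j + 2 ≤ u) (hP : 1 ≤ P) :
    2 ^ (j + 1 + 1) * (X * 2 ^ (4 * (2 * t))) * 2 ^ (2 * u) ≤ 2 * Nh * P * (1 / 2) ^ (j + 1) := by
  have h3 : (2 : ℝ) ^ (2 * j + 3 + 8 * t + 2 * u) ≤ 2 ^ (5 * u) :=
    pow_le_pow_right₀ (by norm_num) (by omega)
  have h4 : 2 ^ (j + 1 + 1) * (X * 2 ^ (4 * (2 * t))) * 2 ^ (2 * u) * 2 ^ (j + 1) ≤ Nh := by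
    refine le_trans (le_of_eq ?_) ((mul_le_mul_of_nonneg_left h3 hX0).trans hX)
    have e : 2 * j + 3 + 8 * t + 2 * u = (j + 1 + 1) + 4 * (2 * t) + 2 * u + (j + 1) := by omega
    rw [e, pow_add, pow_add, pow_add]
    ring
  have h5 : (0 : ℝ) < (1 / 2) ^ (j + 1) := by positivity
  have h6 : (2 : ℝ) ^ (j + 1) * (1 / 2) ^ (j + 1) = 1 := by
    rw [← mul_pow]
    norm_num
  have h7 := mul_le_mul_of_nonneg_right h4 h5.le
  rw [mul_assoc _ ((2 : ℝ) ^ (j + 1)), h6, mul_one] at h7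
  refine h7.trans ?_
  have hN : 0 ≤ Nh := le_trans (by positivity) hX
  refine mul_le_mul_of_nonneg_right ?_ h5.le
  nlinarith

open Classical in
private theorem scales (hRSW : T_RSW) (hDRQ : T_DRQ) (hPIG : T_PIG) (R : ℕ) (hR : 144 ≤ R)
    (hNU : ∀ t s N S : ℕ, 1 ≤ t → s ^ 12 ≤ 2 ^ (7 * ((R + 4) * t)) → S ≤ s →
      R * t ≤ N + 4 * t → N ≤ R * t →
      S * (2 ^ N * bl N (130 * t) * bl N (4 * t)) + 2 ^ N * bl N (140 * t) < 3 ^ N)
    (n k m : ℕ) (F : Fml n k m) (t₀ I : ℕ) (Nh : ℝ) (ht₀ : 1 ≤ t₀)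
    (hIn : R * (2 ^ I * t₀) ≤ n) (hNh : (nsol F : ℝ) ≤ Nh)
    (hbad : ∀ i, i ≤ I → (badr F (2 ^ i * t₀) (R * (2 ^ i * t₀) + 4 * (2 ^ i * t₀) + 1) : ℝ) *
      2 ^ (5 * (R * (2 ^ i * t₀))) ≤ Nh)
    (a s : ℕ) (T : Pool.Agent.H47.SQ.Tree n) (ha : a ≤ t₀)
    (hgI : ∀ τ, Sat F τ → τ ∈ gdr F (2 ^ I * t₀) (R * (2 ^ I * t₀) + 4 * (2 ^ I * t₀) + 1))
    (hs : s ^ 12 ≤ 2 ^ (7 * ((R + 4) * t₀))) :
    ((univ.filter fun ω => Find F (Refuted F a s) ω T ∅).card : ℝ) * 2 ^ n ≤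
      (Fintype.card (Finset (Fin n × Bool) → Bool) : ℝ) *
        (4 * Nh * 2 ^ ((R + 4) * t₀)) := by
  have hNh0 : 0 ≤ Nh := le_trans (Nat.cast_nonneg _) hNh
  have hcon : Con (∅ : Finset (Fin n × Bool)) := fun v b h => absurd h (Finset.notMem_empty _)
  obtain ⟨G, hG⟩ : ∃ G : ℕ → Finset (Fin n → Bool), ∀ j, G j =
      gdr F (2 ^ j * t₀) (R * (2 ^ j * t₀) + 4 * (2 ^ j * t₀) + 1) := ⟨_, fun j => rfl⟩
  obtain ⟨C, hC0, hCs⟩ : ∃ C : ℕ → Finset (Fin n → Bool), C 0 = G 0 ∧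
      ∀ j, C (j + 1) = G (j + 1) \ G j :=
    ⟨fun j => Nat.casesOn j (G 0) (fun j => G (j + 1) \ G j), rfl, fun j => rfl⟩
  have hCsub : ∀ j, C j ⊆ G j := by
    intro j
    cases j with
    | zero =>
      rw [hC0]
    | succ j =>
      rw [hCs]
      exact Finset.sdiff_subset
  have hcov : ∀ τ, Sat F τ → ∃ j, j < I + 1 ∧ τ ∈ C j := by
    intro τ hτ
    have hI : τ ∈ G I := by
      rw [hG]
      exact hgI τ hτ
    have hex : ∃ j, τ ∈ G j := ⟨I, hI⟩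
    obtain ⟨j, hj1, hj2, hj3⟩ : ∃ j, τ ∈ G j ∧ j ≤ I ∧ ∀ i < j, τ ∉ G i :=
      ⟨Nat.find hex, Nat.find_spec hex, Nat.find_min' hex hI, fun i hi => Nat.find_min hex hi⟩
    refine ⟨j, by omega, ?_⟩
    cases j with
    | zero =>
      rw [hC0]
      exact hj1
    | succ j =>
      rw [hCs, Finset.mem_sdiff]
      exact ⟨hj1, hj3 j (Nat.lt_succ_self j)⟩
  have hFQ : (univ.filter fun ω => Find F (Refuted F a s) ω T ∅).card ≤
      ∑ j ∈ range (I + 1),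
        (univ.filter fun ω => FindQ (Refuted F a s) (Qi (C j) j) ω T ∅).card := by
    refine le_trans (Finset.card_le_card ?_) Finset.card_biUnion_le
    intro ω hω
    rw [Finset.mem_filter] at hω
    obtain ⟨j, hj, hq⟩ := hPIG n k m F (Refuted F a s) ω (I + 1) C hcov T ∅ hcon hω.2
    rw [Finset.mem_biUnion]
    exact ⟨j, Finset.mem_range.2 hj, Finset.mem_filter.2 ⟨Finset.mem_univ _, hq⟩⟩
  -- the sizes of the classes
  have hc0 : ((C 0).card : ℝ) ≤ Nh := by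
    refine le_trans ?_ hNh
    refine Nat.cast_le.2 ?_
    rw [hC0, hG]
    unfold gdr nsol
    refine Finset.card_le_card fun τ hτ => ?_
    rw [Finset.mem_filter] at hτ ⊢
    exact ⟨hτ.1, hτ.2.1⟩
  have hc1 : ∀ j, (C (j + 1)).card ≤
      badr F (2 ^ j * t₀) (R * (2 ^ j * t₀) + 4 * (2 ^ j * t₀) + 1) := by
    intro j
    rw [hCs, hG, hG]
    unfold gdr badr
    refine Finset.card_le_card fun τ hτ => ?_
    rw [Finset.mem_sdiff, Finset.mem_filter] at hτ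
    rw [Finset.mem_filter]
    refine ⟨Finset.mem_univ _, hτ.1.2.1, fun h => hτ.2 ?_⟩
    rw [Finset.mem_filter]
    exact ⟨Finset.mem_univ _, hτ.1.2.1, h⟩
  -- one class
  have hterm : ∀ j ∈ range (I + 1),
      ((univ.filter fun ω => FindQ (Refuted F a s) (Qi (C j) j) ω T ∅).card : ℝ) * 2 ^ n ≤
      (Fintype.card (Finset (Fin n × Bool) → Bool) : ℝ) *
        (2 * Nh * 2 ^ ((R + 4) * t₀) * (1 / 2) ^ j) := by
    intro j hj
    rw [Finset.mem_range] at hj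
    have hjI : j ≤ I := by omega
    obtain ⟨t, ht⟩ : ∃ t : ℕ, t = 2 ^ j * t₀ := ⟨_, rfl⟩
    have ht0 : t₀ ≤ t := by
      rw [ht]
      exact Nat.le_mul_of_pos_left _ (by positivity)
    have htI : t ≤ 2 ^ I * t₀ := by
      rw [ht]
      exact Nat.mul_le_mul_right _ (Nat.pow_le_pow_right (by norm_num) hjI)
    have htn : R * t ≤ n := le_trans (Nat.mul_le_mul_left _ htI) hIn
    have hst : s ^ 12 ≤ 2 ^ (7 * ((R + 4) * t)) :=
      hs.trans (Nat.pow_le_pow_right (by norm_num)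
        (Nat.mul_le_mul_left _ (Nat.mul_le_mul_left _ ht0)))
    have hCt : C j ⊆ gdr F t (R * t + 4 * t + 1) := by
      rw [ht, ← hG]
      exact hCsub j
    obtain ⟨Res, hRes⟩ := hRSW n k m F R t a s (C j) (by omega) hR htn (by omega) hCt
      (fun N S hS hN1 hN2 => hNU t s N S (by omega) hst hS hN1 hN2)
    have h5 := hDRQ n (C j) (n - R * t) (4 * t) (Refuted F a s) Res hRes (Nat.sub_le _ _)
      (2 ^ (j + 1)) (Qi (C j) j) (fun L hL => hL) T
    have h6 : ((univ.filter fun ω => FindQ (Refuted F a s) (Qi (C j) j) ω T ∅).card : ℝ) *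
        2 ^ (n - R * t) ≤ 2 ^ (j + 1) * (((C j).card : ℝ) * 2 ^ (4 * t)) *
        (Fintype.card (Finset (Fin n × Bool) → Bool) : ℝ) := by exact_mod_cast h5
    have h7 : (2 : ℝ) ^ n = 2 ^ (n - R * t) * 2 ^ (R * t) := by
      rw [← pow_add, Nat.sub_add_cancel htn]
    have h8 : 2 ^ (j + 1) * (((C j).card : ℝ) * 2 ^ (4 * t)) * 2 ^ (R * t) ≤
        2 * Nh * 2 ^ ((R + 4) * t₀) * (1 / 2) ^ j := by
      cases j with
      | zero =>
        rw [pow_zero, one_mul] at ht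
        rw [ht]
        exact tb0 hc0
      | succ j =>
        obtain ⟨t', ht'⟩ : ∃ t' : ℕ, t' = 2 ^ j * t₀ := ⟨_, rfl⟩
        have e1 : t = 2 * t' := by
          rw [ht, ht', pow_succ]
          ring
        have e2 : R * (2 * t') = 2 * (R * t') := by ring
        have h9 : ((C (j + 1)).card : ℝ) * 2 ^ (5 * (R * t')) ≤ Nh := by
          have h10 := hbad j (by omega)
          rw [← ht'] at h10
          refine le_trans (mul_le_mul_of_nonneg_right ?_ (by positivity)) h10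
          have h11 := hc1 j
          rw [← ht'] at h11
          exact Nat.cast_le.2 h11
        have h12 : j + 1 ≤ t' := by
          rw [ht']
          have h13 : j < 2 ^ j := Nat.lt_two_pow_self
          exact le_trans (by omega) (Nat.le_mul_of_pos_right _ ht₀)
        have h14 : 144 * t' ≤ R * t' := Nat.mul_le_mul_right _ hR
        rw [e1, e2]
        exact tb1 h9 (Nat.cast_nonneg _) (by omega) (by omega) (one_le_pow₀ (by norm_num))
    rw [h7, ← mul_assoc]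
    have hΩ0 : (0 : ℝ) ≤ (Fintype.card (Finset (Fin n × Bool) → Bool) : ℝ) := Nat.cast_nonneg _
    calc _ ≤ (2 ^ (j + 1) * (((C j).card : ℝ) * 2 ^ (4 * t)) *
        (Fintype.card (Finset (Fin n × Bool) → Bool) : ℝ)) * 2 ^ (R * t) :=
          mul_le_mul_of_nonneg_right h6 (by positivity)
      _ = (Fintype.card (Finset (Fin n × Bool) → Bool) : ℝ) *
          (2 ^ (j + 1) * (((C j).card : ℝ) * 2 ^ (4 * t)) * 2 ^ (R * t)) := by ring
      _ ≤ _ := mul_le_mul_of_nonneg_left h8 hΩ0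
  have hFr : ((univ.filter fun ω => Find F (Refuted F a s) ω T ∅).card : ℝ) ≤
      ∑ j ∈ range (I + 1),
        ((univ.filter fun ω => FindQ (Refuted F a s) (Qi (C j) j) ω T ∅).card : ℝ) := by
    exact_mod_cast hFQ
  have hgeo := sum_geometric_two_le (I + 1)
  have hΩ0 : (0 : ℝ) ≤ (Fintype.card (Finset (Fin n × Bool) → Bool) : ℝ) := Nat.cast_nonneg _
  calc _ ≤ (∑ j ∈ range (I + 1),
        ((univ.filter fun ω => FindQ (Refuted F a s) (Qi (C j) j) ω T ∅).card : ℝ)) * 2 ^ n :=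
        mul_le_mul_of_nonneg_right hFr (by positivity)
    _ ≤ ∑ j ∈ range (I + 1), (Fintype.card (Finset (Fin n × Bool) → Bool) : ℝ) *
        (2 * Nh * 2 ^ ((R + 4) * t₀) * (1 / 2) ^ j) := by
        rw [Finset.sum_mul]
        exact Finset.sum_le_sum hterm
    _ = (Fintype.card (Finset (Fin n × Bool) → Bool) : ℝ) *
        (2 * Nh * 2 ^ ((R + 4) * t₀) * ∑ j ∈ range (I + 1), (1 / 2) ^ j) := by
        rw [Finset.mul_sum, Finset.mul_sum]
    _ ≤ (Fintype.card (Finset (Fin n × Bool) → Bool) : ℝ) *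
        (2 * Nh * 2 ^ ((R + 4) * t₀) * 2) := by
        refine mul_le_mul_of_nonneg_left ?_ hΩ0
        exact mul_le_mul_of_nonneg_left hgeo (by positivity)
    _ = _ := by ring

private theorem exists_scale {n t R : ℕ} (ht : 1 ≤ t) (hR : 1 ≤ R) (h : R * t ≤ n) :
    ∃ I, R * (2 ^ I * t) ≤ n ∧ n < 2 * (R * (2 ^ I * t)) := by
  classical
  have hex : ∃ i, n < R * (2 ^ i * t) := by
    refine ⟨n, ?_⟩
    have h1 : n < 2 ^ n := Nat.lt_two_pow_self
    have h2 : 2 ^ n ≤ 2 ^ n * t := Nat.le_mul_of_pos_right _ ht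
    have h3 : 2 ^ n * t ≤ R * (2 ^ n * t) := Nat.le_mul_of_pos_left _ hR
    omega
  have hs := Nat.find_spec hex
  rcases hI : Nat.find hex with _ | I
  · rw [hI] at hs
    simp only [pow_zero, one_mul] at hs
    omega
  · rw [hI] at hs
    refine ⟨I, ?_, ?_⟩
    · have := Nat.find_min hex (m := I) (by omega)
      omega
    · have h3 : R * (2 ^ (I + 1) * t) = 2 * (R * (2 ^ I * t)) := by
        rw [pow_succ]
        ring
      rw [h3] at hs
      exact hs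

private theorem root {s M : ℕ} (h : ¬ s ^ 12 ≤ 2 ^ (7 * M)) :
    (2 : ℝ) ^ M ≤ (s : ℝ) ^ (12 / 7 : ℝ) := by
  have h1 : (2 : ℝ) ^ (7 * M) ≤ (s : ℝ) ^ 12 := by
    push Not at h
    exact_mod_cast h.le
  have h2 : ((s : ℝ) ^ (12 / 7 : ℝ)) ^ 7 = (s : ℝ) ^ 12 := by
    rw [← Real.rpow_natCast, ← Real.rpow_mul (Nat.cast_nonneg s), ← Real.rpow_natCast]
    norm_num
  have h3 : ((2 : ℝ) ^ M) ^ 7 ≤ ((s : ℝ) ^ (12 / 7 : ℝ)) ^ 7 := by
    rw [h2, ← pow_mul, mul_comm M 7]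
    exact h1
  exact le_of_pow_le_pow_left₀ (by norm_num) (by positivity) h3

private theorem main (hRSW : T_RSW) (hDRQ : T_DRQ) (hPIG : T_PIG) (R : ℕ) (hR : 144 ≤ R)
    (hNU : ∀ t s N S : ℕ, 1 ≤ t → s ^ 12 ≤ 2 ^ (7 * ((R + 4) * t)) → S ≤ s →
      R * t ≤ N + 4 * t → N ≤ R * t →
      S * (2 ^ N * bl N (130 * t) * bl N (4 * t)) + 2 ^ N * bl N (140 * t) < 3 ^ N)
    (n k m : ℕ) (F : Fml n k m) (t₀ : ℕ) (Nh : ℝ) (ht₀ : 1 ≤ t₀) (hRn : R * t₀ ≤ n)
    (hNh : (nsol F : ℝ) ≤ Nh) (hNh2 : Nh ≤ 2 ^ (R * t₀ + n + 1))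
    (hbad : ∀ t, t₀ ≤ t → R * t ≤ n →
      (badr F t (R * t + 4 * t + 1) : ℝ) * 2 ^ (5 * (R * t)) ≤ Nh)
    (a s : ℕ) (T : Pool.Agent.H47.SQ.Tree n) (ha : a ≤ t₀) (hs : 1 ≤ s) :
    success F a s T * 2 ^ n ≤ (s : ℝ) ^ (12 / 7 : ℝ) * 2 ^ ((R + 4) * t₀ + 2) * Nh := by
  classical
  have hsr : (1 : ℝ) ≤ s := by exact_mod_cast hs
  have hs8 : (1 : ℝ) ≤ (s : ℝ) ^ (12 / 7 : ℝ) := Real.one_le_rpow hsr (by norm_num)
  have hNh0 : 0 ≤ Nh := le_trans (Nat.cast_nonneg _) hNh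
  have hΩ0 : (0 : ℝ) < (Fintype.card (Finset (Fin n × Bool) → Bool) : ℝ) := by
    exact_mod_cast Fintype.card_pos
  have hcon : Con (∅ : Finset (Fin n × Bool)) := fun v b h => absurd h (Finset.notMem_empty _)
  rw [success_eq]
  by_cases hns : nsol F = 0
  · have hno : ∀ τ, ¬ Sat F τ := by
      intro τ hτ
      unfold nsol at hns
      rw [Finset.card_eq_zero, Finset.filter_eq_empty_iff] at hns
      exact hns (Finset.mem_univ τ) hτ
    have hf0 : (univ.filter fun ω => Find F (Refuted F a s) ω T ∅).card = 0 := by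
      rw [Finset.card_eq_zero, Finset.filter_eq_empty_iff]
      intro ω _ hω
      obtain ⟨i, hi, _⟩ := hPIG n k m F (Refuted F a s) ω 0 (fun _ => ∅)
        (fun τ hτ => absurd hτ (hno τ)) T ∅ hcon hω
      exact absurd hi (Nat.not_lt_zero i)
    rw [hf0, Nat.cast_zero, zero_div, zero_mul]
    positivity
  have hNh1 : 1 ≤ Nh := by
    refine le_trans ?_ hNh
    exact_mod_cast Nat.one_le_iff_ne_zero.2 hns
  -- the scale of the number of the lines
  have hex : ∃ t, t₀ ≤ t ∧ s ^ 12 ≤ 2 ^ (7 * ((R + 4) * t)) := by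
    refine ⟨t₀ + 12 * s, by omega, ?_⟩
    have h1 : s < 2 ^ s := Nat.lt_two_pow_self
    calc s ^ 12 ≤ (2 ^ s) ^ 12 := Nat.pow_le_pow_left h1.le 12
      _ = 2 ^ (s * 12) := by rw [← pow_mul]
      _ ≤ 2 ^ (7 * ((R + 4) * (t₀ + 12 * s))) := by
          refine Nat.pow_le_pow_right (by norm_num) ?_
          have h2 : t₀ + 12 * s ≤ (R + 4) * (t₀ + 12 * s) :=
            Nat.le_mul_of_pos_left _ (by omega)
          omega
  obtain ⟨t, ⟨htt, hts⟩, hmin⟩ : ∃ t, (t₀ ≤ t ∧ s ^ 12 ≤ 2 ^ (7 * ((R + 4) * t))) ∧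
      ∀ t' < t, ¬ (t₀ ≤ t' ∧ s ^ 12 ≤ 2 ^ (7 * ((R + 4) * t'))) :=
    ⟨Nat.find hex, Nat.find_spec hex, fun i hi => Nat.find_min hex hi⟩
  -- the comparison of the scales
  have hcmp : (2 : ℝ) ^ ((R + 4) * t) ≤ (s : ℝ) ^ (12 / 7 : ℝ) * 2 ^ ((R + 4) * t₀) := by
    rcases Nat.eq_or_lt_of_le htt with h | h
    · rw [← h]
      exact le_mul_of_one_le_left (by positivity) hs8
    · obtain ⟨q, hq⟩ : ∃ q, t = q + 1 := ⟨t - 1, by omega⟩
      have h1 : ¬ s ^ 12 ≤ 2 ^ (7 * ((R + 4) * q)) := fun h2 => hmin q (by omega) ⟨by omega, h2⟩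
      have h2 := root h1
      have h3 : (2 : ℝ) ^ ((R + 4) * t) = 2 ^ ((R + 4) * q) * 2 ^ (R + 4) := by
        rw [hq, ← pow_add]
        congr 1
      have h4 : (2 : ℝ) ^ (R + 4) ≤ 2 ^ ((R + 4) * t₀) :=
        pow_le_pow_right₀ (by norm_num) (Nat.le_mul_of_pos_right _ ht₀)
      rw [h3]
      exact mul_le_mul h2 h4 (by positivity) (by positivity)
  have hfin : (s : ℝ) ^ (12 / 7 : ℝ) * 2 ^ ((R + 4) * t₀ + 2) * Nh =
      4 * Nh * ((s : ℝ) ^ (12 / 7 : ℝ) * 2 ^ ((R + 4) * t₀)) := by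
    rw [pow_add]
    ring
  rw [hfin]
  by_cases htn : R * t ≤ n
  swap
  · -- the success is at most one
    have hf1 : ((univ.filter fun ω => Find F (Refuted F a s) ω T ∅).card : ℝ) ≤
        (Fintype.card (Finset (Fin n × Bool) → Bool) : ℝ) := by
      rw [← Finset.card_univ]
      exact_mod_cast Finset.card_le_card (Finset.filter_subset _ _)
    have h1 : ((univ.filter fun ω => Find F (Refuted F a s) ω T ∅).card : ℝ) /
        (Fintype.card (Finset (Fin n × Bool) → Bool) : ℝ) ≤ 1 := by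
      rw [div_le_one hΩ0]
      exact hf1
    have h2 : (2 : ℝ) ^ n ≤ 2 ^ ((R + 4) * t) := by
      refine pow_le_pow_right₀ (by norm_num) ?_
      have h3 : R * t ≤ (R + 4) * t := Nat.mul_le_mul_right _ (by omega)
      omega
    calc _ ≤ 1 * (2 : ℝ) ^ n := mul_le_mul_of_nonneg_right h1 (by positivity)
      _ = 1 * (2 : ℝ) ^ n := rfl
      _ ≤ (4 * Nh) * ((s : ℝ) ^ (12 / 7 : ℝ) * 2 ^ ((R + 4) * t₀)) := by
          refine mul_le_mul (by linarith) (h2.trans hcmp) (by positivity) (by positivity)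
      _ = _ := by ring
  · obtain ⟨I, hI1, hI2⟩ := exists_scale (R := R) (n := n) (t := t) (by omega) (by omega) htn
    have htj : ∀ j, t ≤ 2 ^ j * t := fun j => Nat.le_mul_of_pos_left _ (by positivity)
    have hbj : ∀ i, i ≤ I → (badr F (2 ^ i * t) (R * (2 ^ i * t) + 4 * (2 ^ i * t) + 1) : ℝ) *
        2 ^ (5 * (R * (2 ^ i * t))) ≤ Nh := by
      intro i hi
      refine hbad (2 ^ i * t) (htt.trans (htj i)) (le_trans ?_ hI1)
      exact Nat.mul_le_mul_left _ (Nat.mul_le_mul_right _ (Nat.pow_le_pow_right (by norm_num) hi))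
    have hbI : badr F (2 ^ I * t) (R * (2 ^ I * t) + 4 * (2 ^ I * t) + 1) = 0 := by
      by_contra hb
      have hb1 : (1 : ℝ) ≤ badr F (2 ^ I * t) (R * (2 ^ I * t) + 4 * (2 ^ I * t) + 1) := by
        exact_mod_cast Nat.one_le_iff_ne_zero.2 hb
      have h1 := hbj I le_rfl
      have h2 : (2 : ℝ) ^ (5 * (R * (2 ^ I * t))) ≤ 2 ^ (R * t₀ + n + 1) := by
        refine le_trans ?_ (h1.trans hNh2)
        exact le_mul_of_one_le_left (by positivity) hb1
      have h3 : 5 * (R * (2 ^ I * t)) ≤ R * t₀ + n + 1 :=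
        (pow_le_pow_iff_right₀ (by norm_num)).1 h2
      have h4 : R * t₀ ≤ R * (2 ^ I * t) := Nat.mul_le_mul_left _ (htt.trans (htj I))
      have h5 : R * 1 ≤ R * t₀ := Nat.mul_le_mul_left _ ht₀
      omega
    have hgI : ∀ τ, Sat F τ →
        τ ∈ gdr F (2 ^ I * t) (R * (2 ^ I * t) + 4 * (2 ^ I * t) + 1) := by
      intro τ hτ
      unfold gdr
      rw [Finset.mem_filter]
      refine ⟨Finset.mem_univ _, hτ, ?_⟩
      by_contra hc
      unfold badr at hbI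
      rw [Finset.card_eq_zero, Finset.filter_eq_empty_iff] at hbI
      exact hbI (Finset.mem_univ τ) ⟨hτ, hc⟩
    have hmain := scales hRSW hDRQ hPIG R hR hNU n k m F t I Nh (by omega) hI1 hNh hbj a s T
      (by omega) hgI hts
    have h1 : ((univ.filter fun ω => Find F (Refuted F a s) ω T ∅).card : ℝ) /
        (Fintype.card (Finset (Fin n × Bool) → Bool) : ℝ) * 2 ^ n ≤
        4 * Nh * 2 ^ ((R + 4) * t) := by
      rw [div_mul_eq_mul_div, div_le_iff₀ hΩ0]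
      exact hmain.trans (le_of_eq (mul_comm _ _))
    exact h1.trans (mul_le_mul_of_nonneg_left hcmp (by positivity))

/-- (MSD) all scales together. -/
theorem pf_MSD (hRSW : T_RSW) (hNUE : T_NUE) (hDRQ : T_DRQ) (hPIG : T_PIG) : T_MSD := by
  intro n k m F t₀ Nh ht₀ hRn hNh hNh2 hbad a s T ha hs
  exact main hRSW hDRQ hPIG (2 ^ 22) (by norm_num) hNUE n k m F t₀ Nh ht₀ hRn hNh hNh2 hbad
    a s T ha hs

end Pool.Agent.H42.SP
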