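import Pool.Agent.H47.SQ.Targets2

/-! Board `ppz_modules`, row RSW: the interface between the adversary and the search, any ratio `R`
(adapted from the module RSV of helper67). -/

set_option autoImplicit false

namespace Pool.Agent.H42.SP

open Finset Pool.Agent.H97.RK Pool.Agent.H41.SS Pool.Agent.H47.SR
open Pool.Agent.H47.PL (Sat Agr Con dm)
open Pool.Agent.H47.SQ (Derivation Refuted)

private theorem dm_insert {n : ℕ} (L : Finset (Fin n × Bool)) (v : Fin n) (b : Bool) :
    dm (insert (v, b) L) = insert v (dm L) := by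
  unfold dm
  rw [Finset.image_insert]

private theorem mem_dm {n : ℕ} {L : Finset (Fin n × Bool)} {v : Fin n} {b : Bool}
    (h : (v, b) ∈ L) : v ∈ dm L := Finset.mem_image_of_mem Prod.fst h

private theorem dm_card_le {n : ℕ} (L : Finset (Fin n × Bool)) : (dm L).card ≤ L.card :=
  Finset.card_image_le

private theorem agr_mono {n : ℕ} {τ : Fin n → Bool} {L : Finset (Fin n × Bool)}
    {a : Fin n × Bool} (h : Agr τ (insert a L)) : Agr τ L :=
  fun l hl => h l (mem_insert_of_mem hl)

private theorem agr_eq {n : ℕ} {τ τ' : Fin n → Bool} {L : Finset (Fin n × Bool)}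
    (h : Agr τ L) (h' : Agr τ' L) : ∀ u ∈ dm L, τ' u = τ u := by
  intro u hu
  obtain ⟨l, hl, rfl⟩ := Finset.mem_image.1 hu
  rw [h l hl, h' l hl]

private theorem gd_mono {n k m : ℕ} {F : Fml n k m} {t t' d w : ℕ} {x : Fin n → Bool}
    (h : t ≤ t') (hg : Gd F t d w x) : Gd F t' d w x :=
  fun T W h1 h2 h3 => lt_of_lt_of_le (hg T W h1 h2 h3) h

theorem pf_RSW (hSOL : T_SOL) (hASK : Pool.Agent.H41.SS.T_ASK) (hTAR : T_TAR) (hNCS : T_NCS) :
    T_RSW := by
  classical
  intro n k m F R t a s C ht hR hn ha hC hno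
  have hRt : 144 * t ≤ R * t := Nat.mul_le_mul_right _ hR
  obtain ⟨hS1, hS2, hS3, hS4⟩ := hSOL n k m F (2 * t) (128 * t) (12 * t) (by omega) (by omega)
    (by omega)
  have hsat : ∀ τ ∈ C, Sat F τ := fun τ hτ => (Finset.mem_filter.1 (hC hτ)).2.1
  have hgd : ∀ τ ∈ C, ∀ z, dst z τ ≤ R * t + 4 * t + 1 → Gd F t (128 * t) (12 * t) z :=
    fun τ hτ => (Finset.mem_filter.1 (hC hτ)).2.2
  have hgd0 : ∀ τ ∈ C, Gd F (2 * t) (128 * t) (12 * t) τ := by
    intro τ hτ
    refine gd_mono (by omega) (hgd τ hτ τ ?_)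
    have h0 : dst τ τ = 0 := by
      unfold dst
      simp
    omega
  refine ⟨fun L W => W.card ≤ 4 * t ∧ ∃ J, ∀ τ ∈ C, Agr τ L → St2 F (2 * t) τ (dm L) W J,
    ⟨?_, ?_, ?_, ?_⟩⟩
  · -- init
    rcases C.eq_empty_or_nonempty with rfl | ⟨τ₀, hτ₀⟩
    · exact ⟨∅, by simp, ∅, fun τ hτ => by simp at hτ⟩
    · obtain ⟨W, J, hst⟩ := hS1 τ₀ (hsat τ₀ hτ₀) (hgd0 τ₀ hτ₀)
      have h1 := hst.crd
      have h2 := hst.lt
      refine ⟨W, by omega, J, fun τ hτ _ => ?_⟩
      have hdm : dm (∅ : Finset (Fin n × Bool)) = ∅ := by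
        unfold dm
        simp
      rw [hdm]
      exact hS2 τ₀ τ ∅ W J hst (hsat τ hτ) (fun u hu => by simp at hu)
  · intro L W h
    exact h.1
  · rintro L W v b τ ⟨-, J, hJ⟩ hLD hv hτ hagr
    have hst := hJ τ hτ (agr_mono hagr)
    have hc := dm_card_le L
    have hci := Finset.card_insert_le v (dm L)
    obtain ⟨W', J', hWW, hst'⟩ := hS3 τ (dm L) W J v hst (hsat τ hτ) (hgd0 τ hτ) (by omega)
    have h1 := hst'.crd
    have h2 := hst'.lt
    refine ⟨W', hWW, by omega, J', fun τ' hτ' hagr' => ?_⟩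
    have heq := agr_eq hagr hagr'
    rw [dm_insert] at heq ⊢
    exact hS2 τ τ' _ W' J' hst' (hsat τ' hτ') heq
  · rintro L W v b τ ⟨-, J, hJ⟩ hLD hv hvW hτ hagr ⟨S, r, line, hSs, hr, hder, hlr⟩
    have hst := hJ τ hτ (agr_mono hagr)
    have hc := dm_card_le L
    have hci := Finset.card_insert_le v (dm L)
    have hvn : v ∉ dm L ∪ W := by
      rw [mem_union]
      rintro (h | h)
      · exact hv h
      · exact hvW h
    have hτv : τ v = b := hagr (v, b) (mem_insert_self _ _)
    have hag := agr_mono hagr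
    obtain ⟨y, hyv, hyu⟩ : ∃ y : Fin n → Bool, y v = !b ∧ ∀ u, u ≠ v → y u = τ u :=
      ⟨Function.update τ v (!b), by simp, fun u hu => by simp [hu]⟩
    have hsta := hS4 τ y (dm L) W J v hst hvn hyu
    have hdy : dst y τ ≤ 1 := by
      unfold dst
      have h1 : (univ.filter fun u => y u ≠ τ u) ⊆ {v} := by
        intro u hu
        rw [mem_filter] at hu
        rw [mem_singleton]
        by_contra h
        exact hu.2 (hyu u h)
      exact (Finset.card_le_card h1).trans (by simp)
    have hgy : Gd F (2 * t) (128 * t) (12 * t) y :=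
      gd_mono (by omega) (hgd τ hτ y (by omega))
    obtain ⟨y1, W1, J1, hWW1, hy1, hy1', hsta1⟩ := hASK n k m F (2 * t) (128 * t) (12 * t) 0
      (by omega) y y (dm L) W J v hgy hsta (fun u _ => rfl) (by omega)
    obtain ⟨A2, hA2, -, hA2c⟩ := Finset.exists_subsuperset_card_eq
      (Finset.subset_univ (insert v (dm L))) (n := n - R * t) (by omega)
      (by rw [Finset.card_univ, Fintype.card_fin]; omega)
    have hAA : insert v (dm L) ∪ A2 = A2 := Finset.union_eq_right.2 hA2
    obtain ⟨y2, W2, J2, hWW2, hy2, hy2', hsta2⟩ := hTAR n k m F (2 * t) (128 * t) (12 * t)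
      (by omega) y y1 (insert v (dm L)) A2 W1 J1 hgy hsta1 hy1' (by rw [hAA]; omega)
    rw [hAA] at hsta2
    -- the values of `y2` on `insert v (dm L)`
    have hy2A : ∀ u ∈ insert v (dm L), y2 u = y u := by
      intro u hu
      rw [hy2 u (mem_union_left _ hu)]
      refine hy1 u ?_
      rw [mem_insert] at hu ⊢
      rcases hu with hu | hu
      · exact Or.inl hu
      · exact Or.inr (mem_union_left _ hu)
    have hfal : Falsified (line r) y2 := by
      intro l hl
      have h1 := hlr l hl
      rw [mem_insert] at h1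
      rcases h1 with h1 | h1
      · have h2 : l.1 = v := congrArg Prod.fst h1
        have h3 : (!l.2) = !b := congrArg Prod.snd h1
        rw [h2, hy2A v (mem_insert_self _ _), hyv, ← h3]
        cases l.2 <;> simp
      · have h4 : l.1 ≠ v := by
          intro h
          exact hv (h ▸ mem_dm h1)
        rw [hy2A _ (mem_insert_of_mem (mem_dm h1)), hyu _ h4, hag _ h1]
        change (!l.2) ≠ l.2
        cases l.2 <;> simp
    have hvs : vs (line r) ⊆ A2 := by
      intro u hu
      refine hA2 ?_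
      obtain ⟨l, hl, rfl⟩ := Finset.mem_image.1 hu
      have h1 := hlr l hl
      rw [mem_insert] at h1
      rw [mem_insert]
      rcases h1 with h1 | h1
      · left
        exact congrArg Prod.fst h1
      · right
        exact mem_dm h1
    have hW2c : W2.card ≤ 4 * t := by
      have h1 := hsta2.crd
      have h2 := hsta2.lt
      omega
    have hgood : ∀ z : Fin n → Bool, (∀ u ∈ A2, z u = y2 u) → Gd F t (128 * t) (12 * t) z := by
      intro z hz
      refine hgd τ hτ z ?_
      have h1 : (univ.filter fun u => z u ≠ τ u) ⊆ (A2ᶜ ∪ W2) ∪ {v} := by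
        intro u hu
        rw [mem_filter] at hu
        by_contra h
        simp only [mem_union, mem_compl, mem_singleton, not_or, not_not] at h
        apply hu.2
        rw [hz u h.1.1, hy2' u h.1.2, hyu u h.2]
      have h2 := Finset.card_le_card h1
      have h3 := Finset.card_union_le (A2ᶜ ∪ W2) {v}
      have h4 := Finset.card_union_le (A2ᶜ) W2
      have h5 : (A2ᶜ : Finset (Fin n)).card = n - (n - R * t) := by
        rw [Finset.card_compl, Fintype.card_fin, hA2c]
      rw [Finset.card_singleton] at h3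
      unfold dst
      omega
    obtain ⟨N, hN1, hN2, hN3⟩ := hNCS n k m F t (128 * t) (12 * t) ht le_rfl a S line ha hder
      y2 A2 W2 J2 hsta2 hgood r hr hfal hvs
    have hno' := hno N S hSs (by omega) (by omega)
    have e1 : 128 * t + 2 * t = 130 * t := by ring
    have e2 : 12 * t + 128 * t = 140 * t := by ring
    rw [e1, e2] at hN3
    exact absurd hN3 (not_le.2 hno')

end Pool.Agent.H42.SP
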